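import Mathlib
import Pool.Agent.W770.PC.Stms

/-!
# Project PC, part lp
-/

set_option autoImplicit false

namespace Pool.Agent.W253.PC

open MeasureTheory Set Filter Topology Pool.Agent.W770.PC
open scoped ENNReal NNReal

theorem lp_thm : S_lp := by
  intro u A M p _ hA hM hp hu h2
  have hp0 : 0 < p := by linarith
  have hpt : (ENNReal.ofReal p).toReal = p := ENNReal.toReal_ofReal hp0.le
  rw [eLpNorm_eq_lintegral_rpow_enorm_toReal (by simpa using hp0) ENNReal.ofReal_ne_top, hpt]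
  have h1 : ∀ z, ‖u z‖ₑ ^ p ≤ ENNReal.ofReal (A ^ (p - 2)) * ‖u z‖ₑ ^ 2 := by
    intro z
    have e : ‖u z‖ₑ ^ p = ‖u z‖ₑ ^ (p - 2) * ‖u z‖ₑ ^ 2 := by
      rw [← ENNReal.rpow_natCast, ← ENNReal.rpow_add_of_nonneg _ _ (by linarith) (by norm_num)]
      congr 1
      push_cast
      ring
    rw [e, ← ENNReal.ofReal_rpow_of_nonneg hA (by linarith)]
    refine mul_le_mul_left ?_ _
    refine ENNReal.rpow_le_rpow ?_ (by linarith)
    rw [← ofReal_norm]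
    exact ENNReal.ofReal_le_ofReal (hu z)
  have h3 : ∫⁻ z, ‖u z‖ₑ ^ p ≤ ENNReal.ofReal (A ^ (p - 2) * M) := by
    calc ∫⁻ z, ‖u z‖ₑ ^ p ≤ ∫⁻ z, ENNReal.ofReal (A ^ (p - 2)) * ‖u z‖ₑ ^ 2 := lintegral_mono h1
      _ = ENNReal.ofReal (A ^ (p - 2)) * ∫⁻ z, ‖u z‖ₑ ^ 2 :=
          lintegral_const_mul' _ _ ENNReal.ofReal_ne_top
      _ ≤ ENNReal.ofReal (A ^ (p - 2)) * ENNReal.ofReal M := mul_le_mul_right h2 _
      _ = _ := (ENNReal.ofReal_mul (by positivity)).symm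
  calc _ ≤ (ENNReal.ofReal (A ^ (p - 2) * M)) ^ (1 / p) := ENNReal.rpow_le_rpow h3 (by positivity)
    _ = _ := ENNReal.ofReal_rpow_of_nonneg (by positivity) (by positivity)

end Pool.Agent.W253.PC
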